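import Pool.Agent.Lib.MP_50bb2e_nt.Bia.Iface

/-!
MP_50bb2e_nt, board BIA, row ACT: the action of `SL_2(O)` on hyperbolic 3-space.
-/

namespace Pool.Agent.Lib.MP_50bb2e_nt.Bia.Act

open Complex
open scoped ComplexConjugate

theorem norm_sq_c (w : ℂ) : ((‖w‖ : ℝ) : ℂ) ^ 2 = w * conj w := by
  rw [Complex.mul_conj, Complex.normSq_eq_norm_sq]
  push_cast
  rfl

/-- the denominator, real form -/
noncomputable def dn (c d z : ℂ) (y : ℝ) : ℝ := ‖c * z + d‖ ^ 2 + ‖c‖ ^ 2 * y ^ 2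

theorem dn_c (c d z : ℂ) (y : ℝ) :
    (dn c d z y : ℂ) = (c * z + d) * conj (c * z + d) + c * conj c * (y : ℂ) ^ 2 := by
  unfold dn
  push_cast
  rw [norm_sq_c, norm_sq_c]

theorem dn_pos (a b c d z : ℂ) (y : ℝ) (hdet : a * d - b * c = 1) (hy : 0 < y) :
    0 < dn c d z y := by
  unfold dn
  by_cases hc : c = 0
  · have hd : d ≠ 0 := by
      rintro rfl
      rw [hc] at hdet
      simp at hdet
    have h1 : 0 < ‖c * z + d‖ := by
      rw [hc]
      simpa using hd
    positivity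
  · have h1 : 0 < ‖c‖ := norm_pos_iff.2 hc
    positivity

/-- first coordinate -/
noncomputable def az (a b c d z : ℂ) (y : ℝ) : ℂ :=
  ((a * z + b) * conj (c * z + d) + a * conj c * (y : ℂ) ^ 2) / (dn c d z y : ℂ)

/-- Lagrange's identity -/
theorem lag (Q S A A' Pb Qb Rb Sb t : ℂ) :
    (Q * Qb + S * Sb * t) * (A * Pb + A' * Rb * t) =
      (A * Qb + A' * Sb * t) * (Pb * Q + Rb * S * t) +
        t * (A * S - A' * Q) * (Pb * Sb - Rb * Qb) := by
  ring

theorem comp_num (a b p q r s z : ℂ) (y : ℝ)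
    (hD : dn r s z y ≠ 0) :
    (a * az p q r s z y + b) * (dn r s z y : ℂ) =
      ((a * p + b * r) * z + (a * q + b * s)) * conj (r * z + s) +
        (a * p + b * r) * conj r * (y : ℂ) ^ 2 := by
  have hD' : (dn r s z y : ℂ) ≠ 0 := by exact_mod_cast hD
  unfold az
  rw [add_mul, mul_assoc, div_mul_cancel₀ _ hD', dn_c]
  ring

theorem conj_dn (r s z : ℂ) (y : ℝ) : conj (dn r s z y : ℂ) = (dn r s z y : ℂ) :=
  Complex.conj_ofReal _

theorem key (a b c d p q r s z : ℂ) (y : ℝ) (hdet : p * s - q * r = 1)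
    (hD : dn r s z y ≠ 0) :
    ((a * az p q r s z y + b) * conj (c * az p q r s z y + d) +
      a * conj c * ((y / dn r s z y : ℝ) : ℂ) ^ 2) * (dn r s z y : ℂ) =
      ((a * p + b * r) * z + (a * q + b * s)) *
        conj ((c * p + d * r) * z + (c * q + d * s)) +
        (a * p + b * r) * conj (c * p + d * r) * (y : ℂ) ^ 2 := by
  have hD' : (dn r s z y : ℂ) ≠ 0 := by exact_mod_cast hD
  have h1 := comp_num a b p q r s z y hD
  have h2 := congrArg conj (comp_num c d p q r s z y hD)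
  rw [map_mul, conj_dn] at h2
  have h3 := dn_c r s z y
  have hdb : conj p * conj s - conj q * conj r = 1 := by
    rw [← map_mul, ← map_mul, ← map_sub, hdet, map_one]
  apply mul_right_cancel₀ hD'
  have e1 : ((y / dn r s z y : ℝ) : ℂ) ^ 2 * (dn r s z y : ℂ) * (dn r s z y : ℂ) =
      (y : ℂ) ^ 2 := by
    push_cast
    field_simp
  have e2 : ((a * az p q r s z y + b) * conj (c * az p q r s z y + d) +
      a * conj c * ((y / dn r s z y : ℝ) : ℂ) ^ 2) * (dn r s z y : ℂ) * (dn r s z y : ℂ) =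
      ((a * az p q r s z y + b) * (dn r s z y : ℂ)) *
        (conj (c * az p q r s z y + d) * (dn r s z y : ℂ)) +
      a * conj c * (((y / dn r s z y : ℝ) : ℂ) ^ 2 * (dn r s z y : ℂ) * (dn r s z y : ℂ)) := by
    ring
  rw [e2, e1, h1, h2, h3]
  simp only [map_add, map_mul, map_pow, Complex.conj_ofReal, Complex.conj_conj]
  have h4 := lag (r * z + s) r
    ((a * p + b * r) * z + (a * q + b * s)) (a * p + b * r)
    ((conj c * conj p + conj d * conj r) * conj z + (conj c * conj q + conj d * conj s))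
    (conj r * conj z + conj s) (conj c * conj p + conj d * conj r) (conj r) ((y : ℂ) ^ 2)
  have h5 : ((a * p + b * r) * z + (a * q + b * s)) * r - (a * p + b * r) * (r * z + s) = -a := by
    linear_combination (-a) * hdet
  have h6 : ((conj c * conj p + conj d * conj r) * conj z + (conj c * conj q + conj d * conj s)) *
      conj r - (conj c * conj p + conj d * conj r) * (conj r * conj z + conj s) = -conj c := by
    linear_combination (-conj c) * hdb
  rw [h5, h6] at h4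
  linear_combination -h4

theorem key_den (c d p q r s z : ℂ) (y : ℝ) (hdet : p * s - q * r = 1)
    (hD : dn r s z y ≠ 0) :
    dn c d (az p q r s z y) (y / dn r s z y) * dn r s z y =
      dn (c * p + d * r) (c * q + d * s) z y := by
  have h := key c d c d p q r s z y hdet hD
  rw [← dn_c, ← dn_c] at h
  exact_mod_cast h

variable {O : Subring ℂ}

theorem det_c (g : SLO O) : (g 0 0 : ℂ) * (g 1 1 : ℂ) - (g 0 1 : ℂ) * (g 1 0 : ℂ) = 1 := by
  have h := g.2
  rw [Matrix.det_fin_two] at h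
  have h2 := congrArg (fun x : O => (x : ℂ)) h
  push_cast at h2
  exact h2

theorem mul_c (g k : SLO O) (i j : Fin 2) :
    ((g * k) i j : ℂ) = (g i 0 : ℂ) * (k 0 j : ℂ) + (g i 1 : ℂ) * (k 1 j : ℂ) := by
  have h : (g * k) i j = g i 0 * k 0 j + g i 1 * k 1 j := by
    rw [Matrix.SpecialLinearGroup.coe_mul, Matrix.mul_apply, Fin.sum_univ_two]
  rw [h]
  push_cast
  rfl

theorem den_eq (g : SLO O) (z : ℂ) (y : ℝ) : den g z y = dn (g 1 0) (g 1 1) z y := rfl

theorem actz_eq (g : SLO O) (z : ℂ) (y : ℝ) :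
    actz g z y = az (g 0 0) (g 0 1) (g 1 0) (g 1 1) z y := rfl

theorem den_pos (g : SLO O) (z : ℂ) (y : ℝ) (hy : 0 < y) : 0 < den g z y :=
  dn_pos _ _ _ _ z y (det_c g) hy

theorem acty_pos (g : SLO O) (z : ℂ) (y : ℝ) (hy : 0 < y) : 0 < acty g z y :=
  div_pos hy (den_pos g z y hy)

theorem den_mul (g k : SLO O) (z : ℂ) (y : ℝ) (hy : 0 < y) :
    den g (actz k z y) (acty k z y) * den k z y = den (g * k) z y := by
  have h := key_den (g 1 0) (g 1 1) (k 0 0) (k 0 1) (k 1 0) (k 1 1) z y (det_c k)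
    (den_pos k z y hy).ne'
  rw [den_eq (g * k), mul_c, mul_c]
  exact h

theorem actz_mul (g k : SLO O) (z : ℂ) (y : ℝ) (hy : 0 < y) :
    actz (g * k) z y = actz g (actz k z y) (acty k z y) := by
  have hD := (den_pos k z y hy).ne'
  have hD' : (den k z y : ℂ) ≠ 0 := by exact_mod_cast hD
  have h := key (g 0 0) (g 0 1) (g 1 0) (g 1 1) (k 0 0) (k 0 1) (k 1 0) (k 1 1) z y (det_c k) hD
  have hm : (den g (actz k z y) (acty k z y) : ℂ) * (den k z y : ℂ) =
      (den (g * k) z y : ℂ) := by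
    exact_mod_cast den_mul g k z y hy
  have h1 : actz g (actz k z y) (acty k z y) =
      (((g 0 0 : ℂ) * actz k z y + (g 0 1 : ℂ)) *
        conj ((g 1 0 : ℂ) * actz k z y + (g 1 1 : ℂ)) +
        (g 0 0 : ℂ) * conj (g 1 0 : ℂ) * (acty k z y : ℂ) ^ 2) * (den k z y : ℂ) /
        ((den g (actz k z y) (acty k z y) : ℂ) * (den k z y : ℂ)) := by
    rw [mul_div_mul_right _ _ hD']
    rfl
  have h2 : actz (g * k) z y =
      ((((g * k) 0 0 : ℂ) * z + ((g * k) 0 1 : ℂ)) *
        conj (((g * k) 1 0 : ℂ) * z + ((g * k) 1 1 : ℂ)) +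
        ((g * k) 0 0 : ℂ) * conj ((g * k) 1 0 : ℂ) * (y : ℂ) ^ 2) / (den (g * k) z y : ℂ) := rfl
  rw [h1, h2, hm]
  congr 1
  rw [mul_c, mul_c, mul_c, mul_c]
  exact h.symm

theorem acty_mul (g k : SLO O) (z : ℂ) (y : ℝ) (hy : 0 < y) :
    acty (g * k) z y = acty g (actz k z y) (acty k z y) := by
  have hD := (den_pos k z y hy).ne'
  have hm := den_mul g k z y hy
  have h1 : acty g (actz k z y) (acty k z y) =
      y / den k z y / den g (actz k z y) (acty k z y) := rfl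
  have h2 : acty (g * k) z y = y / den (g * k) z y := rfl
  rw [h1, h2, ← hm, div_div, mul_comm]

theorem act_cusp (g : SLO O) (y : ℝ) (hy : 0 < y) (hc : (g 1 0 : ℂ) ≠ 0) :
    actz g (-(g 1 1 : ℂ) / (g 1 0 : ℂ)) y = (g 0 0 : ℂ) / (g 1 0 : ℂ) ∧
      acty g (-(g 1 1 : ℂ) / (g 1 0 : ℂ)) y = 1 / (‖(g 1 0 : ℂ)‖ ^ 2 * y) := by
  have h0 : (g 1 0 : ℂ) * (-(g 1 1 : ℂ) / (g 1 0 : ℂ)) + (g 1 1 : ℂ) = 0 := by
    field_simp
    ring
  have hden : den g (-(g 1 1 : ℂ) / (g 1 0 : ℂ)) y = ‖(g 1 0 : ℂ)‖ ^ 2 * y ^ 2 := by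
    unfold den
    rw [h0]
    simp
  have hn : ‖(g 1 0 : ℂ)‖ ≠ 0 := norm_ne_zero_iff.2 hc
  have hy' : (y : ℂ) ≠ 0 := by exact_mod_cast hy.ne'
  constructor
  · unfold actz
    rw [hden, h0]
    push_cast
    rw [norm_sq_c, map_zero, mul_zero, zero_add]
    have hcc : conj (g 1 0 : ℂ) ≠ 0 := by
      intro h
      exact hc ((map_eq_zero _).1 h)
    field_simp
  · unfold acty
    rw [hden]
    field_simp

/-- row ACT -/
theorem act_proof : ActStatement := by
  intro O g k z y hy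
  exact ⟨den_pos g z y hy, acty_pos g z y hy, actz_mul g k z y hy, acty_mul g k z y hy,
    act_cusp g y hy⟩

end Pool.Agent.Lib.MP_50bb2e_nt.Bia.Act
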