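import Pool.Agent.Lib.MP_50bb2e_nt.Bia.Iface

/-!
# Row CVM: central values by the Mellin transform
-/

set_option autoImplicit false

namespace Pool.Agent.Lib.MP_50bb2e_nt.Bia.Cvm

open Complex MeasureTheory Filter Topology Set Asymptotics

noncomputable section

theorem bes_pow (hB : BesStatement) (N : ℕ) :
    ∃ K : ℝ, 0 ≤ K ∧ ∀ x : ℝ, 0 < x → bes x ≤ K / x ^ N := by
  obtain ⟨-, -, -, ⟨C, hC0, hC⟩, -, -⟩ := hB
  refine ⟨C * (N.factorial * 2 ^ N), by positivity, fun x hx => ?_⟩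
  refine (hC x hx.le).trans ?_
  have h1 := Real.pow_div_factorial_le_exp (x / 2) (by positivity) N
  have h2 : Real.exp (-x / 2) = (Real.exp (x / 2))⁻¹ := by
    rw [← Real.exp_neg]; ring_nf
  rw [h2]
  have h3 : 0 < (x / 2) ^ N / (N.factorial : ℝ) := by positivity
  have h4 := inv_anti₀ h3 h1
  calc C * (Real.exp (x / 2))⁻¹ ≤ C * ((x / 2) ^ N / (N.factorial : ℝ))⁻¹ := by gcongr
    _ = C * (N.factorial * 2 ^ N) / x ^ N := by
        rw [inv_div, div_pow]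
        field_simp

variable {O : Subring ℂ}

/-- the terms of the series -/
def tm (e : O → ℂ) (κ : ℝ) (a : O) (y : ℝ) : ℂ :=
  e a / (‖(a : ℂ)‖ : ℂ) ^ 2 * (bes (κ * ‖(a : ℂ)‖ * y) : ℂ)

theorem norm_ofReal_norm (z : ℂ) : ‖((‖z‖ : ℝ) : ℂ)‖ = ‖z‖ := by
  simp

theorem norm_tm (hB : BesStatement) (e : O → ℂ) (κ : ℝ) (a : O) (y : ℝ) :
    ‖tm e κ a y‖ = ‖e a‖ / ‖(a : ℂ)‖ ^ 2 * bes (κ * ‖(a : ℂ)‖ * y) := by
  unfold tm
  rw [norm_mul, norm_div, norm_pow, norm_ofReal_norm, Complex.norm_real, Real.norm_eq_abs,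
    abs_of_nonneg (hB.2.1 _)]

theorem coe_ne {a : O} (h : a ≠ 0) : (a : ℂ) ≠ 0 := by
  intro h'
  exact h (Subtype.ext h')

theorem tm_bound (hB : BesStatement) (hO : QRing O) {e : O → ℂ} {κ : ℝ} (hκ : 0 < κ)
    (he : e 0 = 0) {C : ℝ} {A : ℕ} (hC : ∀ a : O, ‖e a‖ ≤ C * ‖(a : ℂ)‖ ^ A) (N : ℕ)
    (hN : A + 1 ≤ N) :
    ∃ K : ℝ, 0 ≤ K ∧ ∀ a : O, ∀ y : ℝ, 0 < y →
      ‖tm e κ a y‖ ≤ K * ‖(a : ℂ)‖ ^ (-(3 : ℝ)) * (y ^ N)⁻¹ := by
  obtain ⟨K, hK0, hK⟩ := bes_pow hB N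
  have hC0 : 0 ≤ C := by
    have := (norm_nonneg (e 1)).trans (hC 1)
    simpa using this
  refine ⟨C * K / κ ^ N, by positivity, fun a y hy => ?_⟩
  rcases eq_or_ne a 0 with rfl | ha
  · unfold tm
    rw [he]
    simp
  have ha' := coe_ne ha
  have hn : 1 ≤ ‖(a : ℂ)‖ := hO.norm_ge _ a.2 ha'
  have hn0 : 0 < ‖(a : ℂ)‖ := by linarith
  rw [norm_tm hB]
  have h1 : bes (κ * ‖(a : ℂ)‖ * y) ≤ K / (κ * ‖(a : ℂ)‖ * y) ^ N := hK _ (by positivity)
  have h2 : ‖e a‖ / ‖(a : ℂ)‖ ^ 2 ≤ C * ‖(a : ℂ)‖ ^ A / ‖(a : ℂ)‖ ^ 2 := by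
    gcongr
    exact hC a
  have h0 : 0 ≤ bes (κ * ‖(a : ℂ)‖ * y) := hB.2.1 _
  calc ‖e a‖ / ‖(a : ℂ)‖ ^ 2 * bes (κ * ‖(a : ℂ)‖ * y)
      ≤ C * ‖(a : ℂ)‖ ^ A / ‖(a : ℂ)‖ ^ 2 * (K / (κ * ‖(a : ℂ)‖ * y) ^ N) := by gcongr
    _ = C * K / κ ^ N * (‖(a : ℂ)‖ ^ A / (‖(a : ℂ)‖ ^ 2 * ‖(a : ℂ)‖ ^ N)) * (y ^ N)⁻¹ := by
        rw [mul_pow, mul_pow]
        field_simp
    _ ≤ C * K / κ ^ N * ‖(a : ℂ)‖ ^ (-(3 : ℝ)) * (y ^ N)⁻¹ := by
        gcongr
        rw [Real.rpow_neg hn0.le, div_le_iff₀ (by positivity)]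
        have h3 : ‖(a : ℂ)‖ ^ (3 : ℝ) = ‖(a : ℂ)‖ ^ 3 := by
          exact_mod_cast Real.rpow_natCast ‖(a : ℂ)‖ 3
        rw [h3, ← div_eq_inv_mul, le_div_iff₀ (by positivity), ← pow_add, ← pow_add]
        exact pow_le_pow_right₀ hn (by omega)

section main

variable (hB : BesStatement) (hS : SumStatement) (hO : QRing O) {e : O → ℂ} {κ : ℝ} {l : ℂ}
  (hκ : 0 < κ) (he : e 0 = 0) {C : ℝ} {A : ℕ} (hC : ∀ a : O, ‖e a‖ ≤ C * ‖(a : ℂ)‖ ^ A)

/-- the function -/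
def ph (e : O → ℂ) (κ : ℝ) (y : ℝ) : ℂ := ∑' a : O, tm e κ a y

include hS hO in
theorem sum3 : Summable (fun a : O => ‖(a : ℂ)‖ ^ (-(3 : ℝ))) := (hS O hO).1 3 (by norm_num)

include hS hO in
theorem countable : Countable O := by
  have h1 := (sum3 hS hO).countable_support
  have h2 : (Set.univ : Set O) ⊆ insert 0 (Function.support
      (fun a : O => ‖(a : ℂ)‖ ^ (-(3 : ℝ)))) := by
    intro a _
    rcases eq_or_ne a 0 with rfl | ha
    · exact Or.inl rfl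
    · right
      have h3 : 0 < ‖(a : ℂ)‖ := norm_pos_iff.2 (coe_ne ha)
      exact (Real.rpow_pos_of_pos h3 _).ne'
  have h3 : (Set.univ : Set O).Countable := (h1.insert 0).mono h2
  exact Set.countable_univ_iff.1 h3

include hB in
theorem tm_cont (a : O) : Continuous (tm e κ a) := by
  unfold tm
  have h := hB.2.2.2.2.1
  have h1 : Continuous fun y : ℝ => bes (κ * ‖(a : ℂ)‖ * y) := h.comp (by fun_prop)
  exact continuous_const.mul (Complex.continuous_ofReal.comp h1)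

include hB hS hO hκ he hC in
theorem ph_contOn : ContinuousOn (ph e κ) (Ioi 0) := by
  intro y hy
  have hy : 0 < y := hy
  obtain ⟨K, hK0, hK⟩ := tm_bound hB hO hκ he hC (A + 1) le_rfl
  have h1 : ContinuousOn (ph e κ) (Ioi (y / 2)) := by
    refine continuousOn_tsum (α := O) (f := fun a => tm e κ a)
      (u := fun a : O => K * ‖(a : ℂ)‖ ^ (-(3 : ℝ)) * ((y / 2) ^ (A + 1))⁻¹)
      (fun a => (tm_cont hB a).continuousOn) (((sum3 hS hO).mul_left K).mul_right _) ?_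
    intro a x hx
    have hx : y / 2 < x := hx
    refine (hK a x (by linarith)).trans ?_
    have : 0 ≤ ‖(a : ℂ)‖ ^ (-(3 : ℝ)) := Real.rpow_nonneg (norm_nonneg _) _
    gcongr
  exact (h1.continuousAt (Ioi_mem_nhds (by linarith))).continuousWithinAt

include hB hS hO hκ he hC in
theorem ph_bound (N : ℕ) (hN : A + 1 ≤ N) : ∃ K : ℝ, ∀ y : ℝ, 0 < y →
    ‖ph e κ y‖ ≤ K * (y ^ N)⁻¹ := by
  obtain ⟨K, hK0, hK⟩ := tm_bound hB hO hκ he hC N hN
  refine ⟨K * ∑' a : O, ‖(a : ℂ)‖ ^ (-(3 : ℝ)), fun y hy => ?_⟩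
  have h1 : HasSum (fun a : O => K * ‖(a : ℂ)‖ ^ (-(3 : ℝ)) * (y ^ N)⁻¹)
      (K * (∑' a : O, ‖(a : ℂ)‖ ^ (-(3 : ℝ))) * (y ^ N)⁻¹) :=
    ((sum3 hS hO).hasSum.mul_left K).mul_right _
  exact tsum_of_norm_bounded h1 fun a => hK a y hy

include hB hS hO hκ he hC in
theorem ph_top (r : ℝ) : ph e κ =O[atTop] (· ^ (-r) : ℝ → ℝ) := by
  obtain ⟨N, hN⟩ := exists_nat_ge (max r ((A : ℝ) + 1))
  have hN1 : A + 1 ≤ N := by exact_mod_cast (le_max_right _ _).trans hN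
  obtain ⟨K, hK⟩ := ph_bound hB hS hO hκ he hC N hN1
  refine IsBigO.of_bound K ?_
  filter_upwards [eventually_ge_atTop 1] with y hy
  have hy0 : 0 < y := by linarith
  have h1 := hK y hy0
  have hK0 : 0 ≤ K := by
    have h2 := (norm_nonneg _).trans h1
    exact nonneg_of_mul_nonneg_left h2 (by positivity)
  refine h1.trans ?_
  rw [Real.norm_of_nonneg (Real.rpow_nonneg hy0.le _)]
  gcongr
  rw [← Real.rpow_natCast, ← Real.rpow_neg hy0.le]
  exact Real.rpow_le_rpow_of_exponent_le hy (by have := (le_max_left _ _).trans hN; linarith)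

include hB hS hO hκ he hC in
theorem ph_loc : LocallyIntegrableOn (ph e κ) (Ioi 0) :=
  (ph_contOn hB hS hO hκ he hC).locallyIntegrableOn measurableSet_Ioi

theorem ph_bot (hl : Tendsto (ph e κ) (𝓝[>] 0) (𝓝 l)) :
    ph e κ =O[𝓝[>] 0] (· ^ (-(0 : ℝ)) : ℝ → ℝ) := by
  have h1 := hl.isBigO_one ℝ
  refine h1.trans ?_
  refine IsBigO.of_bound 1 ?_
  filter_upwards with y
  simp

include hB hS hO hκ he hC in
theorem ph_conv (hl : Tendsto (ph e κ) (𝓝[>] 0) (𝓝 l)) (w : ℂ) (hw : 0 < w.re) :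
    MellinConvergent (ph e κ) w :=
  mellinConvergent_of_isBigO_rpow (ph_loc hB hS hO hκ he hC)
    (ph_top hB hS hO hκ he hC (w.re + 1)) (by linarith) (ph_bot hl) hw

include hB hS hO hκ he hC in
theorem ph_diff (hl : Tendsto (ph e κ) (𝓝[>] 0) (𝓝 l)) (w : ℂ) (hw : 0 < w.re) :
    DifferentiableAt ℂ (mellin (ph e κ)) w :=
  mellin_differentiableAt_of_isBigO_rpow (ph_loc hB hS hO hκ he hC)
    (ph_top hB hS hO hκ he hC (w.re + 1)) (by linarith) (ph_bot hl) hw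

include hB hS hO hκ he hC in
theorem ph_int (hl : Tendsto (ph e κ) (𝓝[>] 0) (𝓝 l)) : IntegrableOn (ph e κ) (Ioi 0) := by
  have h := ph_conv hB hS hO hκ he hC hl 1 (by simp)
  unfold MellinConvergent at h
  refine h.congr_fun (fun t ht => ?_) measurableSet_Ioi
  simp

/-- The Abelian theorem. -/
theorem abel {f : ℝ → ℂ} (hf : IntegrableOn f (Ioi 0)) (hl : Tendsto f (𝓝[>] 0) (𝓝 l)) :
    Tendsto (fun w : ℝ => (w : ℂ) * mellin f w) (𝓝[>] 0) (𝓝 l) := by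
  have key := tendsto_setIntegral_peak_smul_of_integrableOn_of_tendsto (μ := volume)
    (s := Ioi (0 : ℝ)) (x₀ := 0) (l := 𝓝[>] (0 : ℝ)) (a := l) (g := f)
    (φ := fun w x => w * x ^ (w - 1)) measurableSet_Ioi (t := Ioc 0 1) measurableSet_Ioc
    (fun x hx => hx.1) ?_ (by simp) ?_ ?_ ?_ ?_ hf hl
  · refine key.congr' ?_
    filter_upwards [self_mem_nhdsWithin] with w hw
    have hw : 0 < w := hw
    unfold mellin
    rw [← integral_const_mul]
    refine setIntegral_congr_fun measurableSet_Ioi fun x hx => ?_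
    have hx : 0 < x := hx
    simp only [real_smul, smul_eq_mul]
    rw [Complex.ofReal_mul, Complex.ofReal_cpow hx.le]
    push_cast
    ring
  · rw [mem_nhdsWithin]
    exact ⟨Iio 1, isOpen_Iio, by simp, fun x hx => ⟨hx.2, le_of_lt hx.1⟩⟩
  · filter_upwards [self_mem_nhdsWithin] with w hw x hx
    have hw : 0 < w := hw
    have hx : 0 < x := hx
    positivity
  · intro u hu h0
    obtain ⟨δ, hδ, hδu⟩ := Metric.isOpen_iff.1 hu 0 h0
    rw [Metric.tendstoUniformlyOn_iff]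
    intro ε hε
    have h1 : Tendsto (fun w : ℝ => w * max 1 δ⁻¹) (𝓝[>] 0) (𝓝 0) := by
      have : Tendsto (fun w : ℝ => w * max 1 δ⁻¹) (𝓝 0) (𝓝 (0 * max 1 δ⁻¹)) :=
        tendsto_id.mul_const _
      rw [zero_mul] at this
      exact this.mono_left nhdsWithin_le_nhds
    have h2 : Iio (1 : ℝ) ∈ 𝓝[>] (0 : ℝ) := mem_nhdsWithin_of_mem_nhds (Iio_mem_nhds one_pos)
    filter_upwards [self_mem_nhdsWithin, h2, h1.eventually (gt_mem_nhds hε)] with w hw hw1 hw2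
    have hw : 0 < w := hw
    have hw1 : w < 1 := hw1
    intro x hx
    have hx0 : 0 < x := hx.1
    have hxδ : δ ≤ x := by
      by_contra h
      refine hx.2 (hδu ?_)
      rw [Metric.mem_ball, Real.dist_eq, sub_zero, abs_of_pos hx0]
      exact not_le.1 h
    have h3 : x ^ (w - 1) ≤ max 1 δ⁻¹ := by
      rcases le_total 1 x with h | h
      · exact (Real.rpow_le_one_of_one_le_of_nonpos h (by linarith)).trans (le_max_left _ _)
      · refine le_trans ?_ (le_max_right _ _)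
        have h4 : x ^ (w - 1) ≤ x ^ (-1 : ℝ) :=
          Real.rpow_le_rpow_of_exponent_ge hx0 h (by linarith)
        refine h4.trans ?_
        rw [Real.rpow_neg_one]
        exact inv_anti₀ hδ hxδ
    have h5 : 0 ≤ x ^ (w - 1) := Real.rpow_nonneg hx0.le _
    simp only [Pi.zero_apply, dist_zero_left, norm_mul, Real.norm_eq_abs, abs_of_pos hw,
      abs_of_nonneg h5]
    exact lt_of_le_of_lt (mul_le_mul_of_nonneg_left h3 hw.le) hw2
  · refine tendsto_const_nhds.congr' ?_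
    filter_upwards [self_mem_nhdsWithin] with w hw
    have hw : 0 < w := hw
    rw [integral_const_mul, ← intervalIntegral.integral_of_le zero_le_one,
      integral_rpow (Or.inl (by linarith))]
    simp [hw.ne']
  · filter_upwards [self_mem_nhdsWithin] with w hw
    refine ContinuousOn.aestronglyMeasurable ?_ measurableSet_Ioi
    refine continuousOn_const.mul ?_
    intro x hx
    have hx : 0 < x := hx
    exact (Real.continuousAt_rpow_const _ _ (Or.inl hx.ne')).continuousWithinAt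

include hB in
theorem tm_mellin (a : O) (ha : a ≠ 0) (hκ : 0 < κ) (w : ℂ) (hw : 0 < w.re) :
    MellinConvergent (tm e κ a) w ∧
      mellin (tm e κ a) w = e a / (‖(a : ℂ)‖ : ℂ) ^ 2 * (((κ * ‖(a : ℂ)‖ : ℝ) : ℂ) ^ (-w) *
        mellin (fun x => (bes x : ℂ)) w) := by
  have hn : 0 < κ * ‖(a : ℂ)‖ := mul_pos hκ (norm_pos_iff.2 (coe_ne ha))
  obtain ⟨h1, -⟩ := hB.2.2.2.2.2 w hw
  have h2 : MellinConvergent (fun y => (bes (κ * ‖(a : ℂ)‖ * y) : ℂ)) w :=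
    (MellinConvergent.comp_mul_left (f := fun x => (bes x : ℂ)) hn).2 h1
  have h3 : mellin (fun y => (bes (κ * ‖(a : ℂ)‖ * y) : ℂ)) w =
      ((κ * ‖(a : ℂ)‖ : ℝ) : ℂ) ^ (-w) • mellin (fun x => (bes x : ℂ)) w :=
    mellin_comp_mul_left (fun x => (bes x : ℂ)) w hn
  have h4 : tm e κ a = fun y => (e a / (‖(a : ℂ)‖ : ℂ) ^ 2) • (bes (κ * ‖(a : ℂ)‖ * y) : ℂ) := by
    funext y
    rfl
  rw [h4]
  refine ⟨h2.const_smul _, ?_⟩
  rw [mellin_const_smul, h3, smul_eq_mul, smul_eq_mul]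

include hB hS hO hκ he hC in
theorem ph_mellin (w : ℂ) (hw : (A : ℝ) < w.re) :
    HasSum (fun a : O => e a / (‖(a : ℂ)‖ : ℂ) ^ 2 * (((κ * ‖(a : ℂ)‖ : ℝ) : ℂ) ^ (-w) *
        mellin (fun x => (bes x : ℂ)) w)) (mellin (ph e κ) w) := by
  have hA0 : (0 : ℝ) ≤ A := Nat.cast_nonneg A
  have hw0 : 0 < w.re := by linarith
  have := countable hS hO
  have hC0 : 0 ≤ C := by
    have := (norm_nonneg (e 1)).trans (hC 1)
    simpa using this
  have hz : tm e κ 0 = fun _ => (0 : ℂ) := by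
    funext y
    unfold tm
    rw [he]
    simp
  have h1 : ∀ a : O, Integrable (fun y : ℝ => (y : ℂ) ^ (w - 1) • tm e κ a y)
      (volume.restrict (Ioi 0)) := by
    intro a
    rcases eq_or_ne a 0 with rfl | ha
    · rw [hz]
      simp
    · exact (tm_mellin hB a ha hκ w hw0).1
  set K : ℝ := ∫ y in Ioi (0 : ℝ), y ^ (w.re - 1) * bes y with hK
  have h2 : ∀ a : O, a ≠ 0 → ∫ y in Ioi (0 : ℝ), ‖(y : ℂ) ^ (w - 1) • tm e κ a y‖ =
      ‖e a‖ / ‖(a : ℂ)‖ ^ 2 * ((κ * ‖(a : ℂ)‖) ^ (-w.re) * K) := by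
    intro a ha
    have hn : 0 < κ * ‖(a : ℂ)‖ := mul_pos hκ (norm_pos_iff.2 (coe_ne ha))
    have h3 : ∫ y in Ioi (0 : ℝ), ‖(y : ℂ) ^ (w - 1) • tm e κ a y‖ =
        ∫ y in Ioi (0 : ℝ), ‖e a‖ / ‖(a : ℂ)‖ ^ 2 * (κ * ‖(a : ℂ)‖) ^ (-(w.re - 1)) *
          ((fun u : ℝ => u ^ (w.re - 1) * bes u) (κ * ‖(a : ℂ)‖ * y)) := by
      refine setIntegral_congr_fun measurableSet_Ioi fun y hy => ?_
      have hy : 0 < y := hy
      simp only [norm_smul]
      rw [norm_tm hB, Complex.norm_cpow_eq_rpow_re_of_pos hy, Real.mul_rpow hn.le hy.le,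
        Real.rpow_neg hn.le]
      have h5 : (κ * ‖(a : ℂ)‖) ^ (w.re - 1) ≠ 0 := (Real.rpow_pos_of_pos hn _).ne'
      simp only [Complex.sub_re, Complex.one_re]
      generalize (κ * ‖(a : ℂ)‖) ^ (w.re - 1) = q at h5 ⊢
      field_simp
    rw [h3, integral_const_mul, integral_comp_mul_left_Ioi (fun u : ℝ => u ^ (w.re - 1) * bes u)
      0 hn, mul_zero, ← hK, smul_eq_mul]
    have h6 : (κ * ‖(a : ℂ)‖) ^ (-w.re) =
        (κ * ‖(a : ℂ)‖) ^ (-(w.re - 1)) * (κ * ‖(a : ℂ)‖)⁻¹ := by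
      rw [← Real.rpow_neg_one, ← Real.rpow_add hn]
      ring_nf
    rw [h6]
    ring
  have h4 : Summable fun a : O => ∫ y in Ioi (0 : ℝ), ‖(y : ℂ) ^ (w - 1) • tm e κ a y‖ := by
    have h5 : Summable fun a : O =>
        C * κ ^ (-w.re) * |K| * ‖(a : ℂ)‖ ^ (-((2 : ℝ) + (w.re - A))) :=
      ((hS O hO).1 (2 + (w.re - A)) (by linarith)).mul_left _
    refine h5.of_norm_bounded fun a => ?_
    rcases eq_or_ne a 0 with rfl | ha
    · rw [hz]
      simp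
      positivity
    · have hn0 : 0 < ‖(a : ℂ)‖ := norm_pos_iff.2 (coe_ne ha)
      rw [h2 a ha, Real.norm_eq_abs, abs_mul, abs_mul, abs_of_nonneg (by positivity),
        abs_of_nonneg (Real.rpow_nonneg (mul_pos hκ hn0).le _), Real.mul_rpow hκ.le hn0.le]
      have h6 : ‖(a : ℂ)‖ ^ (-((2 : ℝ) + (w.re - A))) =
          ‖(a : ℂ)‖ ^ A / ‖(a : ℂ)‖ ^ 2 * ‖(a : ℂ)‖ ^ (-w.re) := by
        rw [show -((2 : ℝ) + (w.re - A)) = (A : ℝ) - (2 : ℕ) + -w.re by push_cast; ring,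
          Real.rpow_add hn0, Real.rpow_sub hn0, Real.rpow_natCast, Real.rpow_natCast]
      rw [h6]
      have h7 := hC a
      calc ‖e a‖ / ‖(a : ℂ)‖ ^ 2 * (κ ^ (-w.re) * ‖(a : ℂ)‖ ^ (-w.re) * |K|)
          ≤ C * ‖(a : ℂ)‖ ^ A / ‖(a : ℂ)‖ ^ 2 * (κ ^ (-w.re) * ‖(a : ℂ)‖ ^ (-w.re) * |K|) := by
            gcongr
        _ = _ := by ring
  have h5 := hasSum_integral_of_summable_integral_norm h1 h4
  have h6 : mellin (ph e κ) w = ∫ y in Ioi (0 : ℝ), ∑' a : O, (y : ℂ) ^ (w - 1) • tm e κ a y := by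
    unfold mellin
    refine setIntegral_congr_fun measurableSet_Ioi fun y hy => ?_
    simp only [smul_eq_mul]
    rw [tsum_mul_left]
    rfl
  rw [h6]
  have h7 : (fun a : O => e a / (‖(a : ℂ)‖ : ℂ) ^ 2 * (((κ * ‖(a : ℂ)‖ : ℝ) : ℂ) ^ (-w) *
      mellin (fun x => (bes x : ℂ)) w)) =
      fun a : O => ∫ y in Ioi (0 : ℝ), (y : ℂ) ^ (w - 1) • tm e κ a y := by
    funext a
    rcases eq_or_ne a 0 with rfl | ha
    · rw [hz, he]
      simp
    · exact (tm_mellin hB a ha hκ w hw0).2.symm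
  rw [h7]
  exact h5

end main

theorem cvm_proof (hB : BesStatement) (hS : SumStatement) : CvmStatement := by
  intro O e κ l hO hκ he ⟨C, A, hC⟩ hl
  have hl' : Tendsto (ph e κ) (𝓝[>] 0) (𝓝 l) := hl
  have hκ0 : (κ : ℂ) ≠ 0 := Complex.ofReal_ne_zero.2 hκ.ne'
  have hG : ∀ s : ℂ, 0 < s.re → Complex.Gamma s ≠ 0 := fun s hs =>
    Complex.Gamma_ne_zero_of_re_pos hs
  have h2 : ∀ w : ℂ, (2 : ℂ) ^ w ≠ 0 := fun w => by
    rw [Complex.cpow_def_of_ne_zero two_ne_zero]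
    exact Complex.exp_ne_zero _
  refine ⟨fun s => (2 * s - 2) * mellin (ph e κ) (2 * s - 2) * (κ : ℂ) ^ (2 * s - 2) /
    ((2 : ℂ) ^ (2 * s - 2) * Complex.Gamma s ^ 2), ?_, ⟨A + 2, ?_⟩, ?_⟩
  · intro s hs
    have hs : 1 < s.re := hs
    have hw : 0 < (2 * s - 2).re := by
      simp only [Complex.sub_re, Complex.mul_re, Complex.re_ofNat, Complex.im_ofNat]
      linarith
    refine DifferentiableAt.differentiableWithinAt ?_
    have d1 : DifferentiableAt ℂ (fun s : ℂ => 2 * s - 2) s := by fun_prop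
    have d2 : DifferentiableAt ℂ (fun s : ℂ => mellin (ph e κ) (2 * s - 2)) s :=
      DifferentiableAt.comp (f := fun s : ℂ => 2 * s - 2) s
        (ph_diff hB hS hO hκ he hC hl' _ hw) d1
    have d3 : DifferentiableAt ℂ (fun s : ℂ => (κ : ℂ) ^ (2 * s - 2)) s :=
      d1.const_cpow (Or.inl hκ0)
    have d4 : DifferentiableAt ℂ (fun s : ℂ => (2 : ℂ) ^ (2 * s - 2)) s :=
      d1.const_cpow (Or.inl two_ne_zero)
    have d5 : DifferentiableAt ℂ Complex.Gamma s := by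
      refine Complex.differentiableAt_Gamma s fun m hm => ?_
      have := congrArg Complex.re hm
      simp at this
      have h0 : (0 : ℝ) ≤ m := Nat.cast_nonneg m
      linarith
    exact ((d1.mul d2).mul d3).div (d4.mul (d5.pow 2))
      (mul_ne_zero (h2 _) (pow_ne_zero _ (hG s (by linarith))))
  · intro s hs
    have hA0 : (0 : ℝ) ≤ A := Nat.cast_nonneg A
    obtain ⟨w, hw⟩ : ∃ w : ℂ, w = 2 * s - 2 := ⟨_, rfl⟩
    have hs' : s = w / 2 + 1 := by rw [hw]; ring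
    have hwre : w.re = 2 * s.re - 2 := by
      rw [hw]
      simp
    have hwA : (A : ℝ) < w.re := by rw [hwre]; linarith
    have hw0 : 0 < w.re := by linarith
    have hwne : w ≠ 0 := fun h => by
      rw [h] at hw0
      simp at hw0
    have h1 := ph_mellin hB hS hO hκ he hC w hwA
    rw [(hB.2.2.2.2.2 w hw0).2] at h1
    have h3 := h1.mul_left (w * (κ : ℂ) ^ w / ((2 : ℂ) ^ w * Complex.Gamma s ^ 2))
    simp only
    rw [← hw]
    have h4 : w * mellin (ph e κ) w * (κ : ℂ) ^ w / ((2 : ℂ) ^ w * Complex.Gamma s ^ 2) =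
        w * (κ : ℂ) ^ w / ((2 : ℂ) ^ w * Complex.Gamma s ^ 2) * mellin (ph e κ) w := by ring
    rw [h4]
    refine Eq.subst (motive := fun F => HasSum F _) (funext fun a => Eq.symm ?_) h3
    rcases eq_or_ne a 0 with rfl | ha
    · rw [he]
      simp
    have hn0 : 0 < ‖(a : ℂ)‖ := norm_pos_iff.2 (coe_ne ha)
    have hnc : ((‖(a : ℂ)‖ : ℝ) : ℂ) ≠ 0 := Complex.ofReal_ne_zero.2 hn0.ne'
    have h5 : (((κ * ‖(a : ℂ)‖ : ℝ) : ℂ)) ^ (-w) =
        (κ : ℂ) ^ (-w) * ((‖(a : ℂ)‖ : ℝ) : ℂ) ^ (-w) := by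
      rw [Complex.ofReal_mul, Complex.mul_cpow_ofReal_nonneg hκ.le hn0.le]
    have h6 : ((‖(a : ℂ)‖ : ℝ) : ℂ) ^ (-2 * s) =
        (((‖(a : ℂ)‖ : ℝ) : ℂ) ^ 2)⁻¹ * ((‖(a : ℂ)‖ : ℝ) : ℂ) ^ (-w) := by
      rw [show -2 * s = -(2 : ℕ) + -w by rw [hs']; push_cast; ring, Complex.cpow_add _ _ hnc,
        Complex.cpow_neg, Complex.cpow_natCast]
    have h7 : Complex.Gamma s = w / 2 * Complex.Gamma (w / 2) := by
      rw [hs', Complex.Gamma_add_one _ (div_ne_zero hwne two_ne_zero)]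
    have h8 : (2 : ℂ) ^ (w - 1) = (2 : ℂ) ^ w / 2 := by
      rw [Complex.cpow_sub _ _ two_ne_zero, Complex.cpow_one]
    have h9 : (κ : ℂ) ^ (-w) = ((κ : ℂ) ^ w)⁻¹ := Complex.cpow_neg _ _
    have h10 : (κ : ℂ) ^ w ≠ 0 := by
      rw [Complex.cpow_def_of_ne_zero hκ0]
      exact Complex.exp_ne_zero _
    have h11 : Complex.Gamma (w / 2 + 1) = Complex.Gamma s := by rw [hs']
    have h12 : Complex.Gamma s ≠ 0 := hG s (by linarith)
    rw [h5, h6, h8, h9, h11]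
    have h13 : Complex.Gamma (w / 2) = Complex.Gamma s / (w / 2) := by
      rw [h7]
      field_simp
    rw [h13]
    have h14 := h2 w
    generalize Complex.Gamma s = G at h12 ⊢
    generalize (2 : ℂ) ^ w = T at h14 ⊢
    generalize (κ : ℂ) ^ w = X at h10 ⊢
    field_simp
  · have h1 := abel (ph_int hB hS hO hκ he hC hl') hl'
    have h3 : Tendsto (fun t : ℝ => 2 * t - 2) (𝓝[>] 1) (𝓝[>] 0) := by
      refine tendsto_nhdsWithin_iff.2 ⟨?_, ?_⟩
      · have : Tendsto (fun t : ℝ => 2 * t - 2) (𝓝 1) (𝓝 (2 * 1 - 2)) :=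
          (tendsto_id.const_mul 2).sub_const 2
        norm_num at this
        exact this.mono_left nhdsWithin_le_nhds
      · filter_upwards [self_mem_nhdsWithin] with t ht
        have ht : 1 < t := ht
        show 0 < 2 * t - 2
        linarith
    have h4 := h1.comp h3
    have h5 : Tendsto (fun t : ℝ => (κ : ℂ) ^ (2 * (t : ℂ) - 2) /
        ((2 : ℂ) ^ (2 * (t : ℂ) - 2) * Complex.Gamma t ^ 2)) (𝓝[>] 1) (𝓝 1) := by
      have c1 : ContinuousAt (fun t : ℝ => 2 * (t : ℂ) - 2) 1 := by fun_prop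
      have c2 : ContinuousAt (fun t : ℝ => (κ : ℂ) ^ (2 * (t : ℂ) - 2)) 1 :=
        c1.const_cpow (Or.inl hκ0)
      have c3 : ContinuousAt (fun t : ℝ => (2 : ℂ) ^ (2 * (t : ℂ) - 2)) 1 :=
        c1.const_cpow (Or.inl two_ne_zero)
      have c4 : ContinuousAt (fun t : ℝ => Complex.Gamma (t : ℂ)) 1 := by
        have c5 : ContinuousAt Complex.Gamma ((1 : ℝ) : ℂ) := by
          refine (Complex.differentiableAt_Gamma _ fun m hm => ?_).continuousAt
          have := congrArg Complex.re hm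
          simp at this
          have h0 : (0 : ℝ) ≤ m := Nat.cast_nonneg m
          linarith
        exact ContinuousAt.comp (f := fun t : ℝ => (t : ℂ)) c5
          Complex.continuous_ofReal.continuousAt
      have c6 : ContinuousAt (fun t : ℝ => (κ : ℂ) ^ (2 * (t : ℂ) - 2) /
          ((2 : ℂ) ^ (2 * (t : ℂ) - 2) * Complex.Gamma t ^ 2)) 1 := by
        refine c2.div (c3.mul (c4.pow 2)) (mul_ne_zero (h2 _) (pow_ne_zero _ ?_))
        exact hG _ (by simp)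
      have c7 := c6.tendsto
      simp only [Complex.ofReal_one, Complex.Gamma_one] at c7
      norm_num at c7
      exact c7.mono_left nhdsWithin_le_nhds
    have h6 := h4.mul h5
    rw [mul_one] at h6
    refine h6.congr fun t => ?_
    simp only [Function.comp]
    push_cast
    ring

end

end Pool.Agent.Lib.MP_50bb2e_nt.Bia.Cvm
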