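import Pool.Agent.Lib.MP_50bb2e_nt.Bia.Iface

/-! MP_50bb2e_nt, board BIA, row BES (helper77): the function `bes x = x K_1(x)`. -/

namespace Pool.Agent.Lib.MP_50bb2e_nt.Bia.Bes

open Complex MeasureTheory Filter Topology Set
open scoped ComplexConjugate

noncomputable section

lemma meas_kernel : Measurable (fun p : ℝ × ℝ => Real.exp (-p.2 - p.1 ^ 2 / (4 * p.2))) := by
  fun_prop

lemma exp_int : IntegrableOn (fun t : ℝ => Real.exp (-t)) (Ioi (0 : ℝ)) := by
  have := integrableOn_exp_neg_Ioi 0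
  simpa using this

lemma exp_integral : ∫ t in Ioi (0 : ℝ), Real.exp (-t) = 1 := by
  have := integral_exp_neg_Ioi_zero
  simpa using this

lemma kernel_le (x t : ℝ) (ht : 0 < t) : Real.exp (-t - x ^ 2 / (4 * t)) ≤ Real.exp (-t) := by
  apply Real.exp_le_exp.mpr
  have : 0 ≤ x ^ 2 / (4 * t) := by positivity
  linarith

lemma kernel_int (x : ℝ) :
    IntegrableOn (fun t : ℝ => Real.exp (-t - x ^ 2 / (4 * t))) (Ioi (0 : ℝ)) := by
  refine Integrable.mono' exp_int (by fun_prop) ?_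
  filter_upwards [ae_restrict_mem measurableSet_Ioi] with t ht
  rw [Real.norm_of_nonneg (Real.exp_pos _).le]
  exact kernel_le x t ht

lemma bes_zero : bes 0 = 1 := by
  rw [bes, ← exp_integral]
  apply integral_congr_ae
  filter_upwards with t
  simp

lemma bes_nonneg (x : ℝ) : 0 ≤ bes x :=
  integral_nonneg fun _ => (Real.exp_pos _).le

lemma bes_le_one (x : ℝ) : bes x ≤ 1 := by
  rw [← exp_integral, bes]
  exact setIntegral_mono_on (kernel_int x) exp_int measurableSet_Ioi fun t ht => kernel_le x t ht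

lemma kernel_le' (x t : ℝ) (ht : 0 < t) :
    Real.exp (-t - x ^ 2 / (4 * t)) ≤ Real.exp (-x / 2) * Real.exp (-(1 / 2) * t) := by
  rw [← Real.exp_add]
  apply Real.exp_le_exp.mpr
  have h : x / 2 ≤ t / 2 + x ^ 2 / (4 * t) := by
    rw [div_add_div _ _ (by norm_num) (by positivity), div_le_div_iff₀ (by norm_num) (by positivity)]
    nlinarith [mul_pos ht ht, sq_nonneg (t - x), sq_nonneg t]
  linarith

lemma bes_decay (x : ℝ) : bes x ≤ 2 * Real.exp (-x / 2) := by
  have h1 : IntegrableOn (fun t : ℝ => Real.exp (-(1 / 2) * t)) (Ioi (0 : ℝ)) :=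
    exp_neg_integrableOn_Ioi 0 (by norm_num)
  have h2 : ∫ t in Ioi (0 : ℝ), Real.exp (-(1 / 2) * t) = 2 := by
    have := integral_exp_mul_Ioi (a := -(1/2 : ℝ)) (by norm_num) 0
    rw [this]
    norm_num
  calc bes x ≤ ∫ t in Ioi (0 : ℝ), Real.exp (-x / 2) * Real.exp (-(1 / 2) * t) :=
        setIntegral_mono_on (kernel_int x) (h1.const_mul _) measurableSet_Ioi
          fun t ht => kernel_le' x t ht
    _ = 2 * Real.exp (-x / 2) := by
        rw [integral_const_mul, h2]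
        ring

lemma bes_cont : Continuous bes := by
  unfold bes
  refine continuous_of_dominated (bound := fun t => Real.exp (-t)) ?_ ?_ exp_int ?_
  · intro x
    fun_prop
  · intro x
    filter_upwards [ae_restrict_mem measurableSet_Ioi] with t ht
    rw [Real.norm_of_nonneg (Real.exp_pos _).le]
    exact kernel_le x t ht
  · filter_upwards with t
    fun_prop

lemma bes_conv (w : ℂ) (hw : 0 < w.re) : MellinConvergent (fun x => (bes x : ℂ)) w := by
  refine mellinConvergent_of_isBigO_rpow (a := w.re + 1) (b := 0) ?_ ?_ (by linarith) ?_ hw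
  · exact (Complex.continuous_ofReal.comp bes_cont).continuousOn.locallyIntegrableOn
      measurableSet_Ioi
  · have h1 : (fun x => (bes x : ℂ)) =O[atTop] fun x : ℝ => Real.exp (-(1 / 2) * x) := by
      refine Asymptotics.IsBigO.of_bound 2 ?_
      filter_upwards with x
      rw [Complex.norm_real, Real.norm_of_nonneg (bes_nonneg x),
        Real.norm_of_nonneg (Real.exp_pos _).le]
      have := bes_decay x
      rw [show -(1 / 2 : ℝ) * x = -x / 2 by ring]
      exact this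
    exact h1.trans (isLittleO_exp_neg_mul_rpow_atTop (by norm_num) _).isBigO
  · refine Asymptotics.IsBigO.of_bound 1 ?_
    filter_upwards with x
    rw [Complex.norm_real, Real.norm_of_nonneg (bes_nonneg x)]
    simpa using bes_le_one x

lemma gauss_mellin (w : ℂ) (hw : 0 < w.re) (t : ℝ) (ht : 0 < t) :
    ∫ x in Ioi (0 : ℝ), (x : ℂ) ^ (w - 1) * (Real.exp (-t - x ^ 2 / (4 * t)) : ℂ) =
      (Real.exp (-t) : ℂ) * ((1 / 2 : ℂ) * ((4 * t : ℝ) : ℂ) ^ (w / 2) * Complex.Gamma (w / 2)) := by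
  have hr : 0 < 1 / (4 * t) := by positivity
  have h1 : mellin (fun u : ℝ => Complex.exp (-(((1 / (4 * t) : ℝ) : ℂ) * u))) (w / 2) =
      (1 / ((1 / (4 * t) : ℝ) : ℂ)) ^ (w / 2) * Complex.Gamma (w / 2) := by
    have := Complex.integral_cpow_mul_exp_neg_mul_Ioi (a := w / 2) (r := 1 / (4 * t))
      (by simpa using hw) hr
    rw [← this, mellin]
    simp only [smul_eq_mul]
  have h2 := mellin_comp_rpow (fun u : ℝ => Complex.exp (-(((1 / (4 * t) : ℝ) : ℂ) * u))) w 2
  have h3 : (w / ((2 : ℝ) : ℂ)) = w / 2 := by norm_num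
  rw [h3, h1] at h2
  have h4 : ∫ x in Ioi (0 : ℝ), (x : ℂ) ^ (w - 1) * (Real.exp (-t - x ^ 2 / (4 * t)) : ℂ) =
      (Real.exp (-t) : ℂ) *
        mellin (fun u : ℝ => Complex.exp (-(((1 / (4 * t) : ℝ) : ℂ) * ((u ^ (2 : ℝ) : ℝ) : ℂ)))) w := by
    rw [mellin, ← integral_const_mul]
    refine setIntegral_congr_fun measurableSet_Ioi fun x hx => ?_
    simp only [smul_eq_mul]
    rw [Real.rpow_two, sub_eq_add_neg (-t), Real.exp_add]
    push_cast
    rw [show (-((x : ℂ) ^ 2 / (4 * (t : ℂ)))) = -(1 / (4 * (t : ℂ)) * (x : ℂ) ^ 2) by ring]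
    ring
  rw [h4, h2]
  have h5 : (1 / ((1 / (4 * t) : ℝ) : ℂ)) = ((4 * t : ℝ) : ℂ) := by
    push_cast
    rw [one_div_one_div]
  rw [h5]
  simp only [abs_two, Complex.real_smul]
  push_cast
  ring

lemma gauss_norm (σ : ℝ) (hσ : 0 < σ) (t : ℝ) (ht : 0 < t) :
    IntegrableOn (fun x : ℝ => x ^ (σ - 1) * Real.exp (-t - x ^ 2 / (4 * t))) (Ioi 0) ∧
    ∫ x in Ioi (0 : ℝ), x ^ (σ - 1) * Real.exp (-t - x ^ 2 / (4 * t)) =
      Real.exp (-t) * ((4 * t) ^ (σ / 2) * (1 / 2) * Real.Gamma (σ / 2)) := by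
  have hr : 0 < 1 / (4 * t) := by positivity
  have e : ∀ x : ℝ, x ^ (σ - 1) * Real.exp (-t - x ^ 2 / (4 * t)) =
      Real.exp (-t) * (x ^ (σ - 1) * Real.exp (-(1 / (4 * t)) * x ^ (2 : ℝ))) := by
    intro x
    rw [Real.rpow_two, sub_eq_add_neg (-t), Real.exp_add,
      show -(x ^ 2 / (4 * t)) = -(1 / (4 * t)) * x ^ 2 by ring]
    ring
  simp_rw [e]
  constructor
  · exact (integrableOn_rpow_mul_exp_neg_mul_rpow (by linarith) (by norm_num) hr).const_mul _
  · rw [integral_const_mul, _root_.integral_rpow_mul_exp_neg_mul_rpow (p := 2) (q := σ - 1)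
      (by norm_num) (by linarith) hr]
    congr 1
    have : (1 / (4 * t)) ^ (-(σ - 1 + 1) / 2) = (4 * t) ^ (σ / 2) := by
      rw [one_div, Real.inv_rpow (by positivity), ← Real.rpow_neg (by positivity)]
      congr 1
      ring
    rw [this]
    congr 2
    ring

lemma fub_int (w : ℂ) (hw : 0 < w.re) :
    Integrable (Function.uncurry fun (x t : ℝ) =>
      (x : ℂ) ^ (w - 1) * (Real.exp (-t - x ^ 2 / (4 * t)) : ℂ))
      ((volume.restrict (Ioi (0 : ℝ))).prod (volume.restrict (Ioi (0 : ℝ)))) := by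
  have hm : Measurable (Function.uncurry fun (x t : ℝ) =>
      (x : ℂ) ^ (w - 1) * (Real.exp (-t - x ^ 2 / (4 * t)) : ℂ)) := by
    have h1 : Measurable fun p : ℝ × ℝ => ((p.1 : ℝ) : ℂ) ^ (w - 1) := by
      fun_prop
    have h2 : Measurable fun p : ℝ × ℝ => ((Real.exp (-p.2 - p.1 ^ 2 / (4 * p.2)) : ℝ) : ℂ) := by
      fun_prop
    exact h1.mul h2
  rw [integrable_prod_iff' hm.aestronglyMeasurable]
  have hn : ∀ x t : ℝ, 0 < x → ‖(x : ℂ) ^ (w - 1) * (Real.exp (-t - x ^ 2 / (4 * t)) : ℂ)‖ =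
      x ^ (w.re - 1) * Real.exp (-t - x ^ 2 / (4 * t)) := by
    intro x t hx
    rw [norm_mul, Complex.norm_cpow_eq_rpow_re_of_pos hx, Complex.norm_real,
      Real.norm_of_nonneg (Real.exp_pos _).le]
    simp
  constructor
  · filter_upwards [ae_restrict_mem measurableSet_Ioi] with t ht
    have h := (gauss_norm w.re hw t ht).1
    refine Integrable.mono' h ?_ ?_
    · exact (hm.comp (measurable_id.prodMk measurable_const)).aestronglyMeasurable
    · filter_upwards [ae_restrict_mem measurableSet_Ioi] with x hx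
      exact (hn x t hx).le
  · have h1 : IntegrableOn (fun t : ℝ =>
        (4 ^ (w.re / 2) * (1 / 2) * Real.Gamma (w.re / 2)) *
          (Real.exp (-t) * t ^ ((w.re / 2 + 1) - 1))) (Ioi (0 : ℝ)) :=
      (Real.GammaIntegral_convergent (s := w.re / 2 + 1) (by linarith)).const_mul _
    refine Integrable.congr h1 ?_
    filter_upwards [ae_restrict_mem measurableSet_Ioi] with t ht
    have h2 : ∫ x in Ioi (0 : ℝ), ‖(Function.uncurry fun (x t : ℝ) =>
        (x : ℂ) ^ (w - 1) * (Real.exp (-t - x ^ 2 / (4 * t)) : ℂ)) (x, t)‖ =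
        ∫ x in Ioi (0 : ℝ), x ^ (w.re - 1) * Real.exp (-t - x ^ 2 / (4 * t)) := by
      refine setIntegral_congr_fun measurableSet_Ioi fun x hx => ?_
      exact hn x t hx
    rw [h2, (gauss_norm w.re hw t ht).2, Real.mul_rpow (by norm_num) (le_of_lt ht),
      add_sub_cancel_right]
    ring

lemma bes_mellin (w : ℂ) (hw : 0 < w.re) :
    mellin (fun x => (bes x : ℂ)) w =
      2 ^ (w - 1) * Complex.Gamma (w / 2) * Complex.Gamma (w / 2 + 1) := by
  have h1 : mellin (fun x => (bes x : ℂ)) w = ∫ x in Ioi (0 : ℝ), ∫ t in Ioi (0 : ℝ),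
      (x : ℂ) ^ (w - 1) * (Real.exp (-t - x ^ 2 / (4 * t)) : ℂ) := by
    rw [mellin]
    refine setIntegral_congr_fun measurableSet_Ioi fun x hx => ?_
    simp only [smul_eq_mul, bes]
    rw [integral_const_mul, integral_complex_ofReal]
  rw [h1, integral_integral_swap (fub_int w hw)]
  have h2 : ∫ t in Ioi (0 : ℝ), ∫ x in Ioi (0 : ℝ),
      (x : ℂ) ^ (w - 1) * (Real.exp (-t - x ^ 2 / (4 * t)) : ℂ) =
      ∫ t in Ioi (0 : ℝ), ((1 / 2 : ℂ) * (4 : ℂ) ^ (w / 2) * Complex.Gamma (w / 2)) *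
        ((Real.exp (-t) : ℂ) * (t : ℂ) ^ ((w / 2 + 1) - 1)) := by
    refine setIntegral_congr_fun measurableSet_Ioi fun t ht => ?_
    rw [gauss_mellin w hw t ht]
    have : ((4 * t : ℝ) : ℂ) ^ (w / 2) = (4 : ℂ) ^ (w / 2) * (t : ℂ) ^ (w / 2) := by
      rw [Complex.ofReal_mul, Complex.mul_cpow_ofReal_nonneg (by norm_num) (le_of_lt ht)]
      norm_num
    rw [this, add_sub_cancel_right]
    ring
  rw [h2, integral_const_mul]
  have h3 : ∫ t in Ioi (0 : ℝ), ((Real.exp (-t) : ℂ) * (t : ℂ) ^ ((w / 2 + 1) - 1)) =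
      Complex.Gamma (w / 2 + 1) := by
    rw [Complex.Gamma_eq_integral (by simp; linarith), Complex.GammaIntegral]
  rw [h3]
  have h4 : (4 : ℂ) ^ (w / 2) = 2 ^ w := by
    have h5 : (4 : ℂ) ^ (w / 2) = ((2 : ℝ) : ℂ) ^ (w / 2) * ((2 : ℝ) : ℂ) ^ (w / 2) := by
      rw [← Complex.mul_cpow_ofReal_nonneg (by norm_num) (by norm_num)]
      norm_num
    rw [h5, ← Complex.cpow_add _ _ (by norm_num), add_halves]
    norm_num
  rw [h4, Complex.cpow_sub _ _ (by norm_num), Complex.cpow_one]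
  ring

theorem bes_proof : BesStatement :=
  ⟨bes_zero, bes_nonneg, bes_le_one, ⟨2, by norm_num, fun x _ => bes_decay x⟩, bes_cont,
    fun w hw => ⟨bes_conv w hw, bes_mellin w hw⟩⟩

end

end Pool.Agent.Lib.MP_50bb2e_nt.Bia.Bes
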