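import Mathlib

/-!
MP_50bb2e_nt, board BIA: the quadratic twists of a weight 2 cuspidal eigenform over an imaginary
quadratic field of class number one do not vanish at the centre in a positive proportion of every
cube. Definitions and statements of the modules. Paper: Bia/Paper.md.
-/

namespace Pool.Agent.Lib.MP_50bb2e_nt.Bia

open Complex MeasureTheory Filter Topology
open scoped ComplexConjugate

noncomputable section

/-- `bes x = x K_1(x)` (`K_1` the modified Bessel function), `bes 0 = 1`. -/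
def bes (x : ℝ) : ℝ := ∫ t in Set.Ioi (0 : ℝ), Real.exp (-t - x ^ 2 / (4 * t))

/-- The subring `O` of `ℂ` is the ring of integers of an imaginary quadratic field of class
number one: it is discrete, not contained in `ℝ` and a principal ideal ring. -/
structure QRing (O : Subring ℂ) : Prop where
  norm_ge : ∀ x ∈ O, x ≠ 0 → 1 ≤ ‖x‖
  nonreal : ∃ x ∈ O, x.im ≠ 0
  pid : IsPrincipalIdealRing O

/-- `δ` is a generator of the different: `z ∈ O` iff `Tr (z b / δ)` is an integer for all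
`b ∈ O`. -/
def IsDiff (O : Subring ℂ) (δ : ℂ) : Prop :=
  δ ≠ 0 ∧ ∀ z : ℂ, z ∈ O ↔ ∀ b ∈ O, ∃ m : ℤ, 2 * (z * b / δ).re = m

/-- the additive character `z ↦ exp (2 π i Tr (z / δ))` -/
def ee (δ z : ℂ) : ℂ := Complex.exp (2 * Real.pi * I * ((2 * (z / δ).re : ℝ) : ℂ))

/-- `4 π / |δ|` -/
def kap (δ : ℂ) : ℝ := 4 * Real.pi / ‖δ‖

variable {O : Subring ℂ}

/-- The primitive on hyperbolic 3-space (points `(z, y)`, `y > 0`) of the harmonic form attached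
to the coefficients `c`: the sum of `c(a) N(a)^(-1) bes(κ |a| y) ee(a z)`. -/
def hh (δ : ℂ) (c : O → ℂ) (z : ℂ) (y : ℝ) : ℂ :=
  ∑' a : O, c a / (‖(a : ℂ)‖ : ℂ) ^ 2 * (bes (kap δ * ‖(a : ℂ)‖ * y) : ℂ) * ee δ (a * z)

/-- `SL_2(O)` -/
abbrev SLO (O : Subring ℂ) := Matrix.SpecialLinearGroup (Fin 2) O

/-- the denominator of the action -/
def den (g : SLO O) (z : ℂ) (y : ℝ) : ℝ :=
  ‖(g 1 0 : ℂ) * z + (g 1 1 : ℂ)‖ ^ 2 + ‖(g 1 0 : ℂ)‖ ^ 2 * y ^ 2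

/-- the first coordinate of `g (z, y)` -/
def actz (g : SLO O) (z : ℂ) (y : ℝ) : ℂ :=
  (((g 0 0 : ℂ) * z + (g 0 1 : ℂ)) * conj ((g 1 0 : ℂ) * z + (g 1 1 : ℂ)) +
    (g 0 0 : ℂ) * conj (g 1 0 : ℂ) * (y : ℂ) ^ 2) / (den g z y : ℂ)

/-- the second coordinate of `g (z, y)` -/
def acty (g : SLO O) (z : ℂ) (y : ℝ) : ℝ := y / den g z y

/-- `c` is the family of coefficients of a normalized weight 2 cuspidal eigenform for
`Γ_0(n)`. -/
structure Form (δ : ℂ) (n : O) (c : O → ℂ) : Prop where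
  zero : c 0 = 0
  one : c 1 = 1
  unit : ∀ u a : O, IsUnit u → c (u * a) = c a
  growth : ∃ C : ℝ, ∃ A : ℕ, ∀ a : O, ‖c a‖ ≤ C * ‖(a : ℂ)‖ ^ A
  modular : ∀ g : SLO O, n ∣ g 1 0 → ∃ k : ℂ, ∀ z : ℂ, ∀ y : ℝ, 0 < y →
    hh δ c (actz g z y) (acty g z y) = hh δ c z y + k
  cusp : ∀ g : SLO O, ∃ l : ℂ, ∀ z : ℂ,
    Tendsto (fun y : ℝ => hh δ c (actz g z y) (acty g z y)) atTop (𝓝 l)
  hecke : ∀ p : O, Prime p → ¬ p ∣ n → ∀ a : O, ¬ p ∣ a → c (p * a) = c p * c a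
  hecke' : ∀ p : O, Prime p → ¬ p ∣ n → ∀ a : O,
    c (p * (p * a)) + (‖(p : ℂ)‖ : ℂ) ^ 2 * c a = c p * c (p * a)

open Classical in
/-- quadratic residue symbol modulo the prime `p` -/
def qs (p a : O) : ℤ := if p ∣ a then 0 else if ∃ b, p ∣ a - b ^ 2 then 1 else -1

/-- the product of the quadratic residue symbols modulo the elements of `S` -/
def chi (S : Finset O) (a : O) : ℤ := ∏ p ∈ S, qs p a

/-- `S` consists of pairwise non associated primes which do not divide `2 n`. -/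
def Adm (n : O) (S : Finset O) : Prop :=
  (∀ p ∈ S, Prime p ∧ ¬ p ∣ 2 * n) ∧ ∀ p ∈ S, ∀ q ∈ S, p ≠ q → ¬ Associated p q

/-- The Dirichlet series `∑ e(a) N(a)^(-s)` over `a ∈ O` has an analytic continuation to
`Re s > 1`, which tends to `l` as `s` tends to `1` along the reals. -/
def CVal (e : O → ℂ) (l : ℂ) : Prop :=
  ∃ L : ℂ → ℂ, DifferentiableOn ℂ L {s | 1 < s.re} ∧
    (∃ σ : ℝ, ∀ s : ℂ, σ < s.re →
      HasSum (fun a : O => e a * (‖(a : ℂ)‖ : ℂ) ^ (-2 * s)) (L s)) ∧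
    Tendsto (fun t : ℝ => L t) (𝓝[>] 1) (𝓝 l)

/-- `chi S` is a Hecke character (trivial on units) and the twist by it has a non-zero central
value. -/
def NonVan (c : O → ℂ) (S : Finset O) : Prop :=
  (∀ u : O, IsUnit u → chi S u = 1) ∧ ∃ l : ℂ, l ≠ 0 ∧ CVal (fun a => c a * (chi S a : ℂ)) l

/-- the ring generated by the Hecke eigenvalues -/
def Rf (n : O) (c : O → ℂ) : Subring ℂ :=
  Subring.closure {x | ∃ p : O, Prime p ∧ ¬ p ∣ n ∧ x = c p}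

open Classical in
/-- THE MAIN THEOREM. -/
def MainStatement : Prop :=
  ∀ (O : Subring ℂ) (δ : ℂ) (n : O) (c : O → ℂ), QRing O → IsDiff O δ → n ≠ 0 → Form δ n c →
  ∀ B : Finset O, Adm n B → NonVan c B →
  ∀ lam : Ideal (Rf n c), lam.IsMaximal → (2 : Rf n c) ∈ lam →
  ∃ d : ℕ, ∀ T : Finset O, Adm n (B ∪ T) → Disjoint B T →
    (∀ p ∈ T, ∀ x : Rf n c, (x : ℂ) = c p → x ∉ lam) →
    ∀ w : O → ℝ, (∀ p ∈ T, 0 ≤ w p ∧ w p ≤ 1) →
      ∏ p ∈ T, (1 + w p) ≤ 2 ^ d *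
        ∑ S ∈ T.powerset, if NonVan c (B ∪ S) then ∏ p ∈ S, w p else 0

/-! ### Residue sums -/

/-- the sum of `F` over a system of representatives modulo `D` -/
def rsum (D : O) (F : O → ℂ) : ℂ :=
  ∑ᶠ x : O ⧸ Ideal.span ({D} : Set O), F (Quotient.out x)

/-- `F` is periodic modulo `D`. -/
def Per (D : O) (F : O → ℂ) : Prop := ∀ a b : O, D ∣ a - b → F a = F b

/-- the quotients of elements of `O` -/
def QF (O : Subring ℂ) : Set ℂ := {r | ∃ a b : O, (b : ℂ) ≠ 0 ∧ r = a / b}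

/-! ### Statements -/

/-- row BES -/
def BesStatement : Prop :=
  (bes 0 = 1) ∧ (∀ x, 0 ≤ bes x) ∧ (∀ x, bes x ≤ 1) ∧
  (∃ C : ℝ, 0 < C ∧ ∀ x : ℝ, 0 ≤ x → bes x ≤ C * Real.exp (-x / 2)) ∧ Continuous bes ∧
  (∀ w : ℂ, 0 < w.re → MellinConvergent (fun x => (bes x : ℂ)) w ∧
    mellin (fun x => (bes x : ℂ)) w =
      2 ^ (w - 1) * Complex.Gamma (w / 2) * Complex.Gamma (w / 2 + 1))

/-- row SUM -/
def SumStatement : Prop :=
  ∀ O : Subring ℂ, QRing O →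
    (∀ r : ℝ, 2 < r → Summable (fun a : O => ‖(a : ℂ)‖ ^ (-r))) ∧
    (∀ (c : O → ℂ) (C : ℝ) (A : ℕ), (∀ a : O, ‖c a‖ ≤ C * ‖(a : ℂ)‖ ^ A) →
      ∀ κ y : ℝ, 0 < κ → 0 < y →
        Summable (fun a : O => ‖c a‖ / ‖(a : ℂ)‖ ^ 2 * bes (κ * ‖(a : ℂ)‖ * y)))

/-- row CVM: central values by the Mellin transform -/
def CvmStatement : Prop :=
  ∀ (O : Subring ℂ) (e : O → ℂ) (κ : ℝ) (l : ℂ), QRing O → 0 < κ → e 0 = 0 →
    (∃ C : ℝ, ∃ A : ℕ, ∀ a : O, ‖e a‖ ≤ C * ‖(a : ℂ)‖ ^ A) →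
    Tendsto (fun y : ℝ => ∑' a : O, e a / (‖(a : ℂ)‖ : ℂ) ^ 2 *
      (bes (κ * ‖(a : ℂ)‖ * y) : ℂ)) (𝓝[>] 0) (𝓝 l) → CVal e l

/-- row UNI: the central value is unique -/
def UniStatement : Prop :=
  ∀ (O : Subring ℂ) (e : O → ℂ) (l l' : ℂ), CVal e l → CVal e l' → l = l'

/-- row ACT: the action of `SL_2(O)` -/
def ActStatement : Prop :=
  ∀ (O : Subring ℂ) (g k : SLO O) (z : ℂ) (y : ℝ), 0 < y →
    0 < den g z y ∧ 0 < acty g z y ∧
    actz (g * k) z y = actz g (actz k z y) (acty k z y) ∧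
    acty (g * k) z y = acty g (actz k z y) (acty k z y) ∧
    ((g 1 0 : ℂ) ≠ 0 → actz g (-(g 1 1 : ℂ) / (g 1 0 : ℂ)) y = (g 0 0 : ℂ) / (g 1 0 : ℂ) ∧
      acty g (-(g 1 1 : ℂ) / (g 1 0 : ℂ)) y = 1 / (‖(g 1 0 : ℂ)‖ ^ 2 * y))

/-- row PIG: simultaneous approximation with bounded denominators -/
def PigStatement : Prop :=
  ∀ O : Subring ℂ, QRing O →
    ∃ N : ℕ, ∀ z : ℂ, ∃ m : ℕ, 1 ≤ m ∧ m ≤ N ∧ ∃ q : O, ‖(m : ℂ) * z - q‖ < 1

open Classical in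
/-- row RES: residue sums -/
def ResStatement : Prop :=
  ∀ O : Subring ℂ, QRing O →
    (∀ D : O, D ≠ 0 → Finite (O ⧸ Ideal.span ({D} : Set O))) ∧
    (∀ D v : O, D ≠ 0 → v ≠ 0 → ∀ F : O → ℂ, Per (D * v) F →
      rsum (D * v) F = rsum D (fun a => rsum v (fun b => F (a + b * D)))) ∧
    (∀ D v : O, D ≠ 0 → v ≠ 0 → ∀ F : O → ℂ, Per (D * v) F →
      rsum (D * v) (fun x => if v ∣ x then F x else 0) =
        rsum D (fun a => F (v * a))) ∧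
    (∀ D t : O, D ≠ 0 → IsCoprime t D → ∀ F : O → ℂ, Per D F →
      rsum D (fun x => F (t * x)) = rsum D F) ∧
    (∀ D t : O, D ≠ 0 → ∀ F : O → ℂ, Per D F → rsum D (fun x => F (x + t)) = rsum D F) ∧
    (∀ D : O, D ≠ 0 → ∀ F G : O → ℂ, rsum D (fun x => F x + G x) = rsum D F + rsum D G) ∧
    (∀ D : O, D ≠ 0 → ∀ (k : ℂ) (F : O → ℂ), rsum D (fun x => k * F x) = k * rsum D F)

open Classical in
/-- row CARD: number of residues and orthogonality of the additive characters -/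
def CardStatement : Prop :=
  ∀ (O : Subring ℂ) (δ : ℂ), QRing O → IsDiff O δ → ∀ D : O, D ≠ 0 →
    (Nat.card (O ⧸ Ideal.span ({D} : Set O)) : ℝ) = ‖(D : ℂ)‖ ^ 2 ∧
    (∀ a b : O, D ∣ a - b → ∀ α : O, ee δ (α * a / D) = ee δ (α * b / D)) ∧
    (∀ α : O, rsum D (fun x => ee δ (α * x / D)) =
      if D ∣ α then (‖(D : ℂ)‖ : ℂ) ^ 2 else 0)

/-- row CHI: the quadratic residue symbol -/
def ChiStatement : Prop :=
  ∀ O : Subring ℂ, QRing O → ∀ p : O, Prime p → ¬ p ∣ 2 →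
    (∀ a b : O, qs p (a * b) = qs p a * qs p b) ∧
    (∀ a b : O, p ∣ a - b → qs p a = qs p b) ∧
    (∀ a : O, qs p a = 0 ∨ qs p a = 1 ∨ qs p a = -1) ∧
    (∀ a : O, qs p a = 0 ↔ p ∣ a) ∧
    rsum p (fun x => (qs p x : ℂ)) = 0

/-- row HEC: the Hecke relation on the level of functions -/
def HecStatement : Prop :=
  ∀ (O : Subring ℂ) (δ : ℂ) (n : O) (c : O → ℂ), QRing O → IsDiff O δ → n ≠ 0 → Form δ n c →
    ∀ (z : ℂ) (y : ℝ), 0 < y →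
    (∀ b : O, hh δ c (z + b) y = hh δ c z y) ∧
    (∀ u : O, IsUnit u → hh δ c (u * z) y = hh δ c z y) ∧
    (∀ p : O, Prime p → ¬ p ∣ n →
      rsum p (fun x => hh δ c ((z + x) / p) (y / ‖(p : ℂ)‖)) + hh δ c (p * z) (‖(p : ℂ)‖ * y) =
        c p * hh δ c z y)

/-- row CUSP: boundary values exist and generate a finitely generated group -/
def CuspStatement : Prop :=
  ∀ (O : Subring ℂ) (δ : ℂ) (n : O) (c : O → ℂ), QRing O → IsDiff O δ → n ≠ 0 → Form δ n c →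
    (∀ r ∈ QF O, ∃ l : ℂ, Tendsto (fun y : ℝ => hh δ c r y) (𝓝[>] 0) (𝓝 l)) ∧
    (∃ V : Finset ℂ, ∀ r ∈ QF O, ∀ l : ℂ,
      Tendsto (fun y : ℝ => hh δ c r y) (𝓝[>] 0) (𝓝 l) → l ∈ AddSubgroup.closure (V : Set ℂ))

/-- the relations satisfied by the boundary values -/
structure Dis (n : O) (c : O → ℂ) (J : ℂ → ℂ) : Prop where
  per : ∀ r ∈ QF O, ∀ b : O, J (r + b) = J r
  unit : ∀ r ∈ QF O, ∀ u : O, IsUnit u → J (u * r) = J r
  hecke : ∀ p : O, Prime p → ¬ p ∣ n → ∀ r ∈ QF O,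
    rsum p (fun x => J ((r + x) / p)) + J (p * r) = c p * J r

/-- row BVH: boundary values satisfy the relations -/
def BvhStatement : Prop :=
  ∀ (O : Subring ℂ) (δ : ℂ) (n : O) (c : O → ℂ), QRing O → IsDiff O δ → n ≠ 0 → Form δ n c →
    ∀ J : ℂ → ℂ, (∀ r ∈ QF O, Tendsto (fun y : ℝ => hh δ c r y) (𝓝[>] 0) (𝓝 (J r))) →
      Dis n c J

/-- the product of the elements of `S` -/
def DD (S : Finset O) : O := ∏ p ∈ S, p

/-- twisted sums of boundary values, `S ⊆ W` -/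
def QQ (J : ℂ → ℂ) (W S : Finset O) : ℂ :=
  rsum (DD W) (fun x => (chi S x : ℂ) * ((∏ p ∈ W \ S, (qs p x) ^ 2 : ℤ) : ℂ) *
    J (x / DD W))

/-- row DIST: the distribution relation -/
def DistStatement : Prop :=
  ∀ (O : Subring ℂ) (n : O) (c : O → ℂ) (J : ℂ → ℂ), QRing O → n ≠ 0 → Dis n c J →
    (∀ W S : Finset O, Adm n W → S ⊆ W →
      QQ J W S = (∏ v ∈ W \ S, (c v - 2 * (chi S v : ℂ))) * QQ J S S) ∧
    (∀ S : Finset O, Adm n S → QQ J S S ≠ 0 → ∀ u : O, IsUnit u → chi S u = 1)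

/-- row CUBE: the sum over a cube is divisible by `2 ^ card` -/
def CubeStatement : Prop :=
  ∀ (O : Subring ℂ) (n : O) (c : O → ℂ) (J : ℂ → ℂ), QRing O → n ≠ 0 → Dis n c J →
    ∀ B U : Finset O, Adm n (B ∪ U) → Disjoint B U →
    ∃ g ∈ AddSubgroup.closure (J '' QF O),
      (∑ S ∈ U.powerset,
        (∏ w ∈ U \ S, (c w - 2 * (chi (B ∪ S) w : ℂ))) * QQ J (B ∪ S) (B ∪ S)) =
      2 ^ U.card * g

/-- row TWI: Gauss sums -/
def TwiStatement : Prop :=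
  ∀ (O : Subring ℂ) (δ : ℂ) (n : O) (c : O → ℂ), QRing O → IsDiff O δ → n ≠ 0 → Form δ n c →
    ∀ S : Finset O, Adm n S → ∃ g : ℂ, g ≠ 0 ∧ ∀ y : ℝ, 0 < y →
      rsum (DD S) (fun x => (chi S x : ℂ) * hh δ c (x / DD S) y) =
        g * ∑' a : O, c a * (chi S a : ℂ) / (‖(a : ℂ)‖ : ℂ) ^ 2 *
          (bes (kap δ * ‖(a : ℂ)‖ * y) : ℂ)

open Classical in
/-- row DEG: a non-zero (twisted) polynomial of degree at most `j` on a cube is non-zero on at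
least the proportion `2 ^ (- j)` of the points -/
def DegStatement : Prop :=
  ∀ (ι : Type) [DecidableEq ι] (R A : Type) [CommRing R] [AddCommGroup A] [Module R A]
    (x : Finset ι → A) (e : ι → Finset ι → R) (T : Finset ι) (j : ℕ),
    (∀ v ∈ T, ∀ C ⊆ T, ∀ a : A, e v C • a = 0 → a = 0) →
    (∀ B U : Finset ι, B ∪ U ⊆ T → Disjoint B U → U.card = j + 1 →
      ∑ S ∈ U.powerset, (∏ w ∈ U \ S, e w (B ∪ S)) • x (B ∪ S) = 0) →
    x ∅ ≠ 0 →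
    2 ^ T.card ≤ 2 ^ j * (T.powerset.filter (fun S => x S ≠ 0)).card

open Classical in
/-- row WEI: from cubes to weights -/
def WeiStatement : Prop :=
  ∀ (ι : Type) [DecidableEq ι] (P : Finset ι → Prop) (T : Finset ι) (d : ℕ) (w : ι → ℝ),
    (∀ p ∈ T, 0 ≤ w p ∧ w p ≤ 1) →
    (∀ R ⊆ T, 2 ^ R.card ≤ 2 ^ d * (R.powerset.filter (fun S => P S)).card) →
    ∏ p ∈ T, (1 + w p) ≤ 2 ^ d *
      ∑ S ∈ T.powerset, if P S then ∏ p ∈ S, w p else 0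

/-- row KRU: Krull's theorem for groups of periods -/
def KruStatement : Prop :=
  ∀ (R : Subring ℂ) (G : Submodule R ℂ) (V : Finset ℂ),
    (G : Set ℂ) ⊆ AddSubgroup.closure (V : Set ℂ) → ∀ x : G, x ≠ 0 →
    ∀ lam : Ideal R, lam ≠ ⊤ → ∃ k : ℕ, x ∉ (lam ^ k • (⊤ : Submodule R G))

end

end Pool.Agent.Lib.MP_50bb2e_nt.Bia
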